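import Pool.Agent.H654R5.PT.Stm

/-!
# PST: the list of all strings of logarithmic length in polynomial time (helper9)
-/

set_option autoImplicit false

namespace Pool.Agent.H654R5.PT.PST

open Pool.Agent.NPC Pool.Agent.H654R5.PT

theorem allStr_iter : ∀ j : ℕ, (fun L : List (List Bool) =>
    L.flatMap (fun s => [false :: s, true :: s]))^[j] [[]] = allStr j := by
  intro j
  induction j with
  | zero => rfl
  | succ j ih => rw [Function.iterate_succ_apply', ih]; rfl

theorem PST_proof (h1 : S_STR) : S_PST := by
  intro α _ k hk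
  obtain ⟨hk1, hk2⟩ := hk
  obtain ⟨r, hr⟩ := hk2.sz_le
  have hF : Poly (fun p : α × List (List Bool) =>
      p.2.flatMap (fun s => [false :: s, true :: s])) := by
    fun_prop
  refine (Poly.iterLen (l := fun a => List.replicate (k a) ())
    (s := fun _ => ([[]] : List (List Bool)))
    (F := fun _ L => L.flatMap (fun s => [false :: s, true :: s])) hk1 (NPC.Poly.const _) hF
    (r * (Polynomial.C 4 * r + Polynomial.C 2) + Polynomial.C 1) ?_).congr fun a => ?_
  · intro a j hj
    rw [List.length_replicate] at hj
    rw [allStr_iter]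
    have h2 := length_lt_sz (List.replicate (2 ^ k a) ())
    rw [List.length_replicate] at h2
    have h3 : sz (List.replicate (2 ^ k a) ()) ≤ r.eval (sz a) := hr a
    have h4 : k a < 2 ^ k a := Nat.lt_two_pow_self
    have h5 : sz (allStr j) ≤ (allStr j).length * ((4 * k a + 1) + 1) + 1 := by
      refine sz_le_length_mul _ _ fun s hs => ?_
      have h6 := (h1.1 j s).1 hs
      have h7 := sz_listBool_le s
      omega
    rw [h1.2.2.1] at h5
    have h8 : 2 ^ j ≤ 2 ^ k a := Nat.pow_le_pow_right (by norm_num) hj
    have h9 : 2 ^ j * ((4 * k a + 1) + 1) ≤ r.eval (sz a) * (4 * r.eval (sz a) + 2) :=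
      Nat.mul_le_mul (by omega) (by omega)
    simp only [Polynomial.eval_add, Polynomial.eval_mul, Polynomial.eval_C]
    omega
  · rw [List.length_replicate]
    exact allStr_iter (k a)

end Pool.Agent.H654R5.PT.PST
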